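import Mathlib
import Pool.Agent.H23.Post

set_option autoImplicit false

namespace Pool.Agent.Results.MP_be00aa_lc.SimpleSizes

open Pool.Agent.H23 Pool.Agent.H23.RE Pool.Agent.H23.TNF Pool.Agent.H23.Rel
open Classical
open Nat.Partrec (Code)

/-- The atomic diagram of the structure with universe `U` in the language of equality:
`⟨0, x, y⟩` codes the sentence `x = y` and `⟨1, x, y⟩` codes its negation. -/
def Diag (U : Set ℕ) : Set ℕ :=
  {m | ∃ x ∈ U, ∃ y ∈ U, (x = y ∧ m = Nat.pair 0 (Nat.pair x y)) ∨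
    (x ≠ y ∧ m = Nat.pair 1 (Nat.pair x y))}

/-- The `e`-th partial computable function computes the atomic diagram of `U`. -/
def Codes (e : ℕ) (U : Set ℕ) : Prop :=
  ∀ m, (Denumerable.ofNat Code e).eval m = Part.some (chi (Diag U) m)

/-- The isomorphism problem of a class of structures in the language of equality. -/
def E (K : Set (Set ℕ)) (p : ℕ × ℕ) : Prop :=
  ∃ U V, Codes p.1 U ∧ Codes p.2 V ∧ U ∈ K ∧ V ∈ K ∧ Nonempty (U ≃ V)

def dg (L : List ℕ) (m : ℕ) : ℕ :=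
  bif L.any (· == m.unpair.2.unpair.1) && L.any (· == m.unpair.2.unpair.2) &&
    (m.unpair.1 == bif m.unpair.2.unpair.1 == m.unpair.2.unpair.2 then 0 else 1) then 1 else 0

theorem dg_eq (L : List ℕ) (m : ℕ) : dg L m = chi (Diag {x | x ∈ L}) m := by
  obtain ⟨t, x, y, rfl⟩ : ∃ t x y, m = Nat.pair t (Nat.pair x y) :=
    ⟨_, _, _, by rw [Nat.pair_unpair, Nat.pair_unpair]⟩
  have : Nat.pair t (Nat.pair x y) ∈ Diag {x | x ∈ L} ↔
      x ∈ L ∧ y ∈ L ∧ t = if x = y then 0 else 1 := by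
    simp only [Diag, Set.mem_ofPred_eq, Nat.pair_eq_pair]
    constructor
    · rintro ⟨a, h1, b, h2, ⟨h3, rfl, rfl, rfl⟩ | ⟨h3, rfl, rfl, rfl⟩⟩ <;> simp [*]
    · rintro ⟨h1, h2, rfl⟩
      exact ⟨x, h1, y, h2, by by_cases h : x = y <;> simp [h]⟩
  simp only [chi, this, dg, Nat.unpair_pair, Bool.cond_eq_ite, Bool.and_eq_true, List.any_eq_true,
    beq_iff_eq, exists_eq_right, and_assoc]

theorem Codes.unique {e : ℕ} {U V : Set ℕ} (h1 : Codes e U) (h2 : Codes e V) : U = V := by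
  ext x
  have := Part.some_injective ((h1 (Nat.pair 0 (Nat.pair x x))).symm.trans (h2 _))
  have k : ∀ U, Nat.pair 0 (Nat.pair x x) ∈ Diag U ↔ x ∈ U := fun U => by
    simp only [Diag, Set.mem_ofPred_eq, Nat.pair_eq_pair]
    exact ⟨fun ⟨a, h, b, _, h'⟩ => by rcases h' with ⟨-, -, rfl, -⟩ | ⟨-, h', -⟩ <;> simp_all,
      fun h => ⟨x, h, x, h, by simp⟩⟩
  simp only [chi, k] at this
  split_ifs at this <;> simp_all

def Sz (a n : ℕ) : Prop := ∃ U, Codes a U ∧ U.Finite ∧ U.ncard = n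

theorem Sz.unique {a n m : ℕ} (h1 : Sz a n) (h2 : Sz a m) : n = m := by
  obtain ⟨U, a1, -, rfl⟩ := h1
  obtain ⟨V, b1, -, rfl⟩ := h2
  rw [a1.unique b1]

theorem pi2 {α β : Type} [Primcodable α] [Primcodable β] {r : α → β → Prop}
    (h : REPred fun x : α × β => r x.1 x.2) : SE (chi (J 2)) fun a => ∀ m, r a m :=
  (se_neg (X := J 1) (se_ex (p := fun a m => ¬ r a m) (se_neg (X := J 0) (se_re h)))).of_eq
    fun a => by simp

theorem re_ev : REPred fun x : (ℕ × ℕ) × ℕ => x.2 ∈ (Denumerable.ofNat Code x.1.1).eval x.1.2 :=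
  re_mem (f := fun x : ℕ × ℕ => (Denumerable.ofNat Code x.1).eval x.2)
    (Nat.Partrec.Code.eval_part.comp (Primrec.to_comp (by fun_prop)) Computable.snd)

theorem Sz_iff (a n : ℕ) : Sz a n ↔ ∃ L : List ℕ, (L.length == n && (List.range L.length).all fun i =>
    (List.range i).all fun j => !(L.getD i 0 == L.getD j 0)) = true ∧
      ∀ m, dg L m ∈ (Denumerable.ofNat Code a).eval m := by
  have k : ∀ L : List ℕ, ((List.range L.length).all fun i =>
      (List.range i).all fun j => !(L.getD i 0 == L.getD j 0)) = true ↔ L.Nodup := fun L => by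
    simp only [List.all_eq_true, List.mem_range, Bool.not_eq_true', beq_eq_false_iff_ne,
      List.Nodup, List.pairwise_iff_getElem]
    exact ⟨fun h i j a b c => by
      have := h j b i c
      rw [List.getD_eq_getElem _ _ a, List.getD_eq_getElem _ _ b] at this
      exact this.symm, fun h i a j b => by
      rw [List.getD_eq_getElem _ _ a, List.getD_eq_getElem _ _ (b.trans a)]
      exact (h j i _ a b).symm⟩
  simp only [Bool.and_eq_true, k, beq_iff_eq, dg_eq, ← Part.eq_some_iff]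
  constructor
  · rintro ⟨U, h1, h2, rfl⟩
    refine ⟨h2.toFinset.toList, ⟨by simp [Set.ncard_eq_toFinset_card U h2], Finset.nodup_toList _⟩, ?_⟩
    simpa [Codes] using h1
  · rintro ⟨L, ⟨rfl, h1⟩, h2⟩
    exact ⟨_, h2, L.finite_toSet, by
      rw [← List.coe_toFinset, Set.ncard_coe_finset, List.toFinset_card_of_nodup h1]⟩

theorem se_congr {α : Type} [Primcodable α] {g : ℕ → ℕ} {p q : α → Prop} (e : ∀ a, q a ↔ p a)
    (h : SE g p) : SE g q := h.of_eq fun a => (e a).symm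

theorem se_Sz : SE (chi (J 2)) fun x : ℕ × ℕ => Sz x.1 x.2 :=
  se_congr (fun x => Sz_iff x.1 x.2) (se_ex (se_and (se_prim (by fun_prop)) (pi2 (r := fun (x : (ℕ × ℕ) × List ℕ) m =>
    dg x.2 m ∈ (Denumerable.ofNat Code x.1.1).eval m) (re_comp' re_ev
      (fun x : ((ℕ × ℕ) × List ℕ) × ℕ => ((x.1.1.1, x.2), dg x.1.2 x.2))
        (by unfold dg; fun_prop)))))

theorem se_noSz : SE (chi (J 2)) fun a => ∀ n, ¬ Sz a n := by
  refine (se_or (se_ex (p := fun (a m : ℕ) => ¬ ∃ v, v ∈ (Denumerable.ofNat Code a).eval m)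
    (se_up (X := J 1) (se_neg (X := J 0) (se_re (re_ex re_ev))))) (pi2 (r := fun a (L : List ℕ) =>
      ∃ w : ℕ × ℕ, w.2 ∈ (Denumerable.ofNat Code a).eval w.1 ∧ (!(w.2 == dg L w.1)) = true)
      (re_ex (re_and (re_comp' re_ev (fun x : (ℕ × List ℕ) × ℕ × ℕ => ((x.1.1, x.2.1), x.2.2))
        (by fun_prop)) (re_prim (by unfold dg; fun_prop)))))).of_eq fun a => ?_
  simp only [Bool.not_eq_true', beq_eq_false_iff_ne, dg_eq]
  constructor
  · rintro (⟨m, h⟩ | h) n ⟨U, h1, h2, -⟩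
    · exact h ⟨_, Part.eq_some_iff.1 (h1 m)⟩
    · obtain ⟨w, a1, a2⟩ := h h2.toFinset.toList
      rw [h1, Part.mem_some_iff] at a1
      simp [a1] at a2
  · intro h
    by_contra h'
    push Not at h'
    obtain ⟨h1, L, h2⟩ := h'
    refine h _ ⟨{x | x ∈ L}, fun m => ?_, L.finite_toSet, rfl⟩
    obtain ⟨v, hv⟩ := h1 m
    exact Part.eq_some_iff.2 (h2 (m, v) hv ▸ hv)

theorem simple : ∃ X : Set ℕ, SE (chi (J 2)) (· ∈ X) ∧ Xᶜ.Infinite ∧
    ∀ V : Set ℕ, SE (chi (J 2)) (· ∈ V) → V.Infinite → ∃ n ∈ V, n ∈ X := by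
  obtain ⟨q, q1, q2, q3, q4⟩ := se_unif (g := chi (J 2))
    (p := fun e n => Nat.pair e n ∈ J 3 ∧ Nat.blt (2 * e) n = true)
    (se_and (se_comp se_jump (fun x : ℕ × ℕ => Nat.pair x.1 x.2) (by fun_prop))
      (se_prim (by fun_prop)))
  refine ⟨{n | ∃ e, q e n}, se_ex (se_comp q1 (fun x : ℕ × ℕ => (x.2, x.1)) (by fun_prop)),
    fun h => ?_, fun V h1 h2 => ?_⟩
  · obtain ⟨k, hk⟩ : ∃ k, k = h.toFinset.card := ⟨_, rfl⟩
    choose! u hu using fun n (hn : ∃ e, q e n) => hn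
    have a := Finset.card_le_card_of_injOn (s := Finset.range (2 * k + 1) \ h.toFinset)
      (t := Finset.range k) u (fun n hn => by
        simp only [Finset.coe_sdiff, Set.Finite.coe_toFinset, Set.sdiff_compl, Finset.coe_range,
          Set.mem_inter_iff, Set.mem_Iio] at hn ⊢
        have := Nat.blt_eq ▸ (q2 _ _ (hu n hn.2)).2
        omega) fun n hn m hm e => by
        simp only [Finset.coe_sdiff, Set.Finite.coe_toFinset, Set.sdiff_compl] at hn hm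
        exact q3 _ _ _ (hu n hn.2) (e ▸ hu m hm.2)
    have b := Finset.le_card_sdiff h.toFinset (Finset.range (2 * k + 1))
    simp only [Finset.card_range] at a b
    omega
  · obtain ⟨e, he⟩ := to_jump h1
    obtain ⟨n, a, b⟩ := h2.exists_gt (2 * e)
    obtain ⟨v, hv⟩ := q4 e n ⟨(he n).1 a, Nat.blt_eq ▸ b⟩
    exact ⟨v, (he v).2 (q2 _ _ hv).1, e, hv⟩

theorem result : ∃ K : Set (Set ℕ), (∀ U V : Set ℕ, U ∈ K → Nonempty (U ≃ V) → V ∈ K) ∧
    Sg 3 (ℕ × ℕ) (E K) ∧ ¬ Sg 3 (ℕ × ℕ) (fun p => ¬ E K p) ∧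
    ¬ ∀ C : ℕ → Prop, Sg 3 ℕ C → ∃ f : ℕ → ℕ × ℕ, Computable f ∧ ∀ x, C x ↔ E K (f x) := by
  obtain ⟨X, x1, x2, x3⟩ := simple
  have hE : ∀ p, E {U | U.Finite ∧ U.ncard ∈ X} p ↔ ∃ n, n ∈ X ∧ Sz p.1 n ∧ Sz p.2 n := fun p =>
    ⟨fun ⟨U, V, h1, h2, h3, h4, ⟨e⟩⟩ => ⟨_, h3.2, ⟨U, h1, h3.1, rfl⟩, V, h2, h4.1,
      (Set.ncard_congr' e).symm⟩, fun ⟨n, h, ⟨U, h1, h2, h3⟩, V, h4, h5, h6⟩ =>
      ⟨U, V, h1, h4, ⟨h2, h3 ▸ h⟩, ⟨h5, h6 ▸ h⟩, by
        have := h2.to_subtype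
        have := h5.to_subtype
        exact Finite.card_eq.1 (h3.trans h6.symm)⟩⟩
  refine ⟨{U | U.Finite ∧ U.ncard ∈ X}, fun U V h ⟨e⟩ =>
    ⟨h.1.of_equiv _ e, Set.ncard_congr' e ▸ h.2⟩, (post 2 _ _).2 (se_congr hE (se_ex (se_and
      (se_comp x1 Prod.snd Primrec.snd) (se_and
        (se_comp se_Sz (fun x : (ℕ × ℕ) × ℕ => (x.1.1, x.2)) (by fun_prop))
        (se_comp se_Sz (fun x : (ℕ × ℕ) × ℕ => (x.1.2, x.2)) (by fun_prop)))))),
      fun h => ?_, fun h => ?_⟩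
  · obtain ⟨n, a, b⟩ := x3 Xᶜ ((se_ex (p := fun n a => Sz a n ∧ ¬ E _ (a, a)) (se_and
      (se_comp se_Sz (fun x : ℕ × ℕ => (x.2, x.1)) (by fun_prop)) (se_comp ((post 2 _ _).1 h)
        (fun x : ℕ × ℕ => (x.2, x.2)) (by fun_prop)))).of_eq fun n => by
      simp only [hE]
      refine ⟨fun ⟨a, a1, a2⟩ a3 => a2 ⟨n, a3, a1, a1⟩, fun a => ?_⟩
      obtain ⟨c, hc⟩ := Nat.Partrec.Code.exists_code.1 (Partrec.nat_iff.1
        (show Primrec (dg (List.range n)) by unfold dg; fun_prop).to_comp.partrec)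
      have s : Sz (Encodable.encode c) n := ⟨{x | x ∈ List.range n}, fun m => by
        rw [Denumerable.ofNat_encode, hc, ← dg_eq]; rfl, (List.range n).finite_toSet, by
        rw [← List.coe_toFinset, Set.ncard_coe_finset, List.toFinset_range, Finset.card_range]⟩
      exact ⟨_, s, fun ⟨m, b, b1, _⟩ => a (b1.unique s ▸ b)⟩) x2
    exact a b
  obtain ⟨f, f1, f2⟩ := h (fun x => Nat.pair x.unpair.1 x ∈ J 3) ((post 2 _ _).2
    (se_comp se_jump (fun x : ℕ => Nat.pair x.unpair.1 x) (by fun_prop)))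
  have fg : REPred fun x : ℕ × ℕ × ℕ => (f x.1 == x.2) = true :=
    re_bool ((show Primrec fun p : (ℕ × ℕ) × ℕ × ℕ => p.1 == p.2 by fun_prop).to_comp.comp
      ((f1.comp Computable.fst).pair Computable.snd))
  obtain ⟨d, d1, d2⟩ : ∃ d : ℕ → List ℕ, Primrec d ∧ ∀ L, d (Encodable.encode L) = L :=
    ⟨fun n => (Encodable.decode n).getD [], by fun_prop, by simp⟩
  obtain ⟨e, he⟩ := to_jump (X := J 2) (p := fun x : ℕ => ∃ p : ℕ × ℕ, (f x == p) = true ∧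
    ((∀ n, ¬ Sz p.1 n) ∨ (∀ n, ¬ Sz p.2 n) ∨ ∃ w : ℕ × ℕ, Sz p.1 w.1 ∧ Sz p.2 w.2 ∧
      (!(w.1 == w.2) || (d x.unpair.2).any (· == w.1)) = true))
    (se_ex (se_and (se_re fg) (se_or (se_comp se_noSz _ (by fun_prop)) (se_or
      (se_comp se_noSz _ (by fun_prop)) (se_ex (se_and (se_comp se_Sz
        (fun x : (ℕ × ℕ × ℕ) × ℕ × ℕ => (x.1.2.1, x.2.1)) (by fun_prop)) (se_and (se_comp se_Sz
          (fun x : (ℕ × ℕ × ℕ) × ℕ × ℕ => (x.1.2.2, x.2.2)) (by fun_prop))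
          (se_prim (by fun_prop)))))))))
  simp only [beq_iff_eq, exists_eq_left', Encodable.encode_nat, Bool.or_eq_true, Bool.not_eq_true',
    beq_eq_false_iff_ne, List.any_eq_true, exists_eq_right] at he
  have key : ∀ F : List ℕ, (∀ n ∈ F, n ∉ X) →
      ∃ n, Sz (f (Nat.pair e (Encodable.encode F))).1 n ∧ n ∉ F ∧ n ∉ X := fun F hF => by
    have a := he (Nat.pair e (Encodable.encode F))
    have b := f2 (Nat.pair e (Encodable.encode F))
    simp only [Nat.unpair_pair, d2, hE] at a b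
    have c : Nat.pair e (Nat.pair e (Encodable.encode F)) ∉ J 3 := fun c => by
      obtain ⟨n, b1, b2, b3⟩ := b.1 c
      rcases a.2 c with a | a | ⟨w, a1, a2, a | a⟩
      exacts [a n b2, a n b3, a ((a1.unique b2).trans (b3.unique a2)), hF _ a (a1.unique b2 ▸ b1)]
    have a' := mt a.1 c
    push Not at a'
    obtain ⟨⟨n, a1⟩, ⟨m, a2⟩, a3⟩ := a'
    obtain ⟨rfl, a4⟩ : n = m ∧ n ∉ F := a3 (n, m) a1 a2
    exact ⟨n, a1, a4, fun h => c (b.2 ⟨n, h, a1, a2⟩)⟩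
  obtain ⟨σ, s0, s1, s2⟩ := se_rec (g := chi (J 2)) (S := fun _ F G => ∃ p : ℕ × ℕ,
    (f (Nat.pair e (Encodable.encode F)) == p) = true ∧ (((∀ n, ¬ Sz p.1 n) ∧ (G == F) = true) ∨
      ∃ n, Sz p.1 n ∧ (G == n :: F) = true)) (se_ex (se_and (se_re (re_comp' fg
        (fun x : (ℕ × List ℕ × List ℕ) × ℕ × ℕ => (Nat.pair e (Encodable.encode x.1.2.1), x.2))
        (by fun_prop))) (se_or (se_and (se_comp se_noSz _ (by fun_prop)) (se_prim (by fun_prop)))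
        (se_ex (se_and (se_comp se_Sz (fun x : ((ℕ × List ℕ × List ℕ) × ℕ × ℕ) × ℕ =>
          (x.1.2.1, x.2)) (by fun_prop)) (se_prim (by fun_prop))))))) [] fun _ F => by
    simp only [beq_iff_eq, exists_eq_left']
    by_cases a : ∃ n, Sz (f (Nat.pair e (Encodable.encode F))).1 n
    · obtain ⟨n, a⟩ := a
      exact ⟨n :: F, Or.inr ⟨n, a, rfl⟩, fun G b => b.elim (fun b => absurd a (b.1 n))
        fun ⟨m, b, c⟩ => b.unique a ▸ c⟩
    · exact ⟨F, Or.inl ⟨not_exists.1 a, rfl⟩, fun G b => b.elim (·.2) fun ⟨m, b, _⟩ => absurd ⟨m, b⟩ a⟩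
  simp only [beq_iff_eq, exists_eq_left'] at s1
  have inv : ∀ s, (∀ n ∈ σ s, n ∉ X) ∧ (σ s).Nodup ∧ (σ s).length = s := fun s => by
    induction s with
    | zero => simp [s0]
    | succ s ih =>
      obtain ⟨n, a1, a2, a3⟩ := key _ ih.1
      rcases s1 s with ⟨b, -⟩ | ⟨m, b, c⟩
      · exact absurd a1 (b n)
      · obtain rfl := b.unique a1
        rw [c]
        exact ⟨List.forall_mem_cons.2 ⟨a3, ih.1⟩, List.nodup_cons.2 ⟨a2, ih.2.1⟩, by simp [ih.2.2]⟩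
  obtain ⟨n, ⟨s, a⟩, b⟩ := x3 {n | ∃ s, n ∈ σ s} ((se_ex (p := fun n (w : ℕ × List ℕ) =>
    σ w.1 = w.2 ∧ w.2.any (· == n) = true) (se_and (se_comp s2 Prod.snd Primrec.snd)
      (se_prim (by fun_prop)))).of_eq fun n => by simp) fun h => by
    have := Finset.card_le_card (s := (σ (h.toFinset.card + 1)).toFinset) (t := h.toFinset)
      fun n hn => h.mem_toFinset.2 ⟨_, List.mem_toFinset.1 hn⟩
    rw [List.toFinset_card_of_nodup (inv _).2.1, (inv _).2.2] at this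
    omega
  exact (inv s).1 n a b

end Pool.Agent.Results.MP_be00aa_lc.SimpleSizes
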